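import Pool.Agent.ZTO.Stmts

set_option autoImplicit false

open scoped BigOperators

namespace Pool.Agent.ZTO.H52

theorem cmb : CmbStmt := by
  intro p hp T ω s e W hs he hω hW1 hstep hper hnil
  have hfact : Fact p.Prime := ⟨hp⟩
  -- all elements of `W i` are zero for `1 ≤ i ≤ e`
  have key : ∀ k, k < e → ∀ D ∈ W (e - k), ∀ j, D j = 0 := by
    intro k
    induction k with
    | zero =>
      intro _ D hD j
      rw [Nat.sub_zero] at hD
      obtain ⟨m, hm⟩ := hnil e he D hD
      have h1 : ∀ l j, D (j + l * e) = D j := by
        intro l
        induction l with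
        | zero => intro j; simp
        | succ l ih =>
          intro j
          rw [show j + (l + 1) * e = (j + l * e) + e by ring, hper e he D hD, ih]
      have h2 : ∀ l, D (j + l * (s * e)) = D j := by
        intro l
        rw [← mul_assoc]
        exact h1 _ _
      have h3 := hm j
      rw [Finset.prod_congr rfl (fun l _ => h2 l), Finset.prod_const] at h3
      exact eq_zero_of_pow_eq_zero h3
    | succ k ih =>
      intro hk D hD j
      have hi : 1 ≤ e - (k + 1) := by omega
      have ih' := ih (by omega)
      by_contra hD0
      have hrel : ∀ t j, ω (j + s * (e - (k + 1))) t * D j - D (j + s) * ω j t = 0 := by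
        intro t j
        have h1 := hstep _ hi D hD t
        rw [show e - (k + 1) + 1 = e - k by omega] at h1
        exact ih' _ h1 j
      have h2 : ∀ j, D j ≠ 0 → D (j + s) ≠ 0 := by
        intro j hj h3
        obtain ⟨t, ht⟩ := hω (j + s * (e - (k + 1)))
        have h4 := hrel t j
        rw [h3, zero_mul, sub_zero] at h4
        exact (mul_ne_zero ht hj) h4
      have h5 : ∀ l, D (j + l * s) ≠ 0 := by
        intro l
        induction l with
        | zero => simpa using hD0
        | succ l ih2 =>
          rw [show j + (l + 1) * s = (j + l * s) + s by ring]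
          exact h2 _ ih2
      obtain ⟨m, hm⟩ := hnil _ hi D hD
      have h6 := hm j
      rw [Finset.prod_eq_zero_iff] at h6
      obtain ⟨l, _, hl⟩ := h6
      have h7 := h5 (l * (e - (k + 1)))
      rw [show j + l * (e - (k + 1)) * s = j + l * (s * (e - (k + 1))) by ring] at h7
      exact h7 hl
  obtain ⟨t, ht⟩ := hω 0
  have h8 := key (e - 1) (by omega) (fun j => ω j t) (by
    rw [show e - (e - 1) = 1 by omega]
    exact hW1 t) 0
  exact ht h8

end Pool.Agent.ZTO.H52
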