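import Pool.Agent.ZTO.Stmts

set_option autoImplicit false

namespace Pool.Agent.ZTO.H52

/-- the abstract quotient construction -/
theorem abs_quot {G : Type} [Group G] (p : ℕ) (ψ : G →* G) (A : Type) [Group A]
    (Z : ℕ → Subgroup A) (hn : ∀ j, (Z j).Normal) (h0 : Z 0 = ⊤) (hanti : ∀ j, Z (j + 1) ≤ Z j)
    (hc : ∀ a b j, a * b * a⁻¹ * b⁻¹ ∈ Z j)
    (τ : A →* A) (hτ : ∀ j a, τ a ∈ Z (j + 1) ↔ a ∈ Z j)
    (r : G →* Monoid.End A) (hr : ∀ g j a, a ∈ Z j → r g a ∈ Z j)
    (heq : ∀ g a, r (ψ g) (τ a) = τ (r g a))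
    (x : A) (hx : x ∉ Z 1) (hp : ∀ a, a ^ p ∈ Z 1)
    (hgen : ∀ j, ∀ a ∈ Z j, ∃ k : ℕ, a * (((⇑τ)^[j] x) ^ k)⁻¹ ∈ Z (j + 1)) :
    ∃ (V : Type) (_ : AddCommGroup V) (F : ℕ → AddSubgroup V) (t : V →+ V)
      (ρ : G →* AddMonoid.End V) (x' : V), Fil p ψ F t ρ x' ∧
      ∀ g, (∀ v, ρ g v = v) → ∀ a j, r g a * a⁻¹ ∈ Z j := by
  classical
  let N : Subgroup A := ⨅ j, Z j
  have hNn : N.Normal := Subgroup.normal_iInf_normal hn
  have hNle : ∀ j, N ≤ Z j := fun j => iInf_le _ j
  have hNmem : ∀ a, a ∈ N ↔ ∀ j, a ∈ Z j := fun a => Subgroup.mem_iInf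
  have hτN : N ≤ N.comap τ := by
    intro a ha
    rw [Subgroup.mem_comap, hNmem]
    intro j
    cases j with
    | zero => rw [h0]; exact Subgroup.mem_top _
    | succ j => exact (hτ j a).mpr (hNle j ha)
  have hrN : ∀ g, N ≤ N.comap (r g) := by
    intro g a ha
    rw [Subgroup.mem_comap, hNmem]
    intro j
    exact hr g j a (hNle j ha)
  have hcomm : ∀ a b : A ⧸ N, a * b = b * a := by
    intro a b
    obtain ⟨a, rfl⟩ := QuotientGroup.mk_surjective a
    obtain ⟨b, rfl⟩ := QuotientGroup.mk_surjective b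
    rw [← QuotientGroup.mk_mul, ← QuotientGroup.mk_mul, QuotientGroup.eq, hNmem]
    intro j
    have h1 := hc b⁻¹ a⁻¹ j
    have h2 : (a * b)⁻¹ * (b * a) = b⁻¹ * a⁻¹ * b⁻¹⁻¹ * a⁻¹⁻¹ := by group
    rw [h2]
    exact h1
  let cg : CommGroup (A ⧸ N) := { QuotientGroup.Quotient.group N with mul_comm := hcomm }
  let π : A → Additive (A ⧸ N) := fun a => Additive.ofMul ((a : A ⧸ N))
  have hπs : ∀ v : Additive (A ⧸ N), ∃ a, π a = v := by
    intro v
    obtain ⟨a, ha⟩ := QuotientGroup.mk_surjective (Additive.toMul v)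
    exact ⟨a, ha⟩
  have hπadd : ∀ a b, π (a * b) = π a + π b := fun a b => rfl
  have hπzero : ∀ a, π a = 0 ↔ ∀ j, a ∈ Z j := by
    intro a
    have h1 : π a = 0 ↔ ((a : A ⧸ N)) = 1 := Iff.rfl
    rw [h1, QuotientGroup.eq_one_iff, hNmem]
  have hπneg : ∀ a, π a⁻¹ = - π a := fun a => rfl
  have hπpow : ∀ a (k : ℕ), π (a ^ k) = k • π a := by
    intro a k
    induction k with
    | zero => rw [pow_zero, zero_smul, hπzero]; intro j; exact Subgroup.one_mem _
    | succ k ih => rw [pow_succ, hπadd, ih, succ_nsmul]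
  let F : ℕ → AddSubgroup (Additive (A ⧸ N)) := fun j =>
    { carrier := {v | ∃ a ∈ Z j, π a = v}
      add_mem' := by
        rintro _ _ ⟨a, ha, rfl⟩ ⟨b, hb, rfl⟩
        exact ⟨a * b, (Z j).mul_mem ha hb, hπadd a b⟩
      zero_mem' := ⟨1, (Z j).one_mem, (hπzero 1).mpr fun j => (Z j).one_mem⟩
      neg_mem' := by
        rintro _ ⟨a, ha, rfl⟩
        exact ⟨a⁻¹, (Z j).inv_mem ha, hπneg a⟩ }
  have hF : ∀ j a, π a ∈ F j ↔ a ∈ Z j := by
    intro j a
    constructor
    · rintro ⟨b, hb, hab⟩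
      have h1 : π (b⁻¹ * a) = 0 := by
        rw [hπadd, hπneg, hab]; exact neg_add_cancel _
      have h2 := (hπzero _).mp h1 j
      have h3 := (Z j).mul_mem hb h2
      rwa [mul_inv_cancel_left] at h3
    · intro ha
      exact ⟨a, ha, rfl⟩
  let t : Additive (A ⧸ N) →+ Additive (A ⧸ N) :=
    MonoidHom.toAdditive (QuotientGroup.map N N τ hτN)
  have ht : ∀ a, t (π a) = π (τ a) := fun a => rfl
  have htj : ∀ j a, (⇑t)^[j] (π a) = π ((⇑τ)^[j] a) := by
    intro j
    induction j with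
    | zero => intro a; rfl
    | succ j ih => intro a; rw [Function.iterate_succ_apply, Function.iterate_succ_apply, ht, ih]
  let ρ : G →* AddMonoid.End (Additive (A ⧸ N)) :=
    { toFun := fun g => MonoidHom.toAdditive (QuotientGroup.map N N (r g) (hrN g))
      map_one' := by
        apply AddMonoidHom.ext
        intro v
        obtain ⟨a, rfl⟩ := hπs v
        have h1 : r 1 a = a := by rw [map_one]; rfl
        have h2 : π (r 1 a) = π a := by rw [h1]
        exact h2
      map_mul' := by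
        intro g h
        apply AddMonoidHom.ext
        intro v
        obtain ⟨a, rfl⟩ := hπs v
        have h1 : r (g * h) a = r g (r h a) := by rw [map_mul]; rfl
        have h2 : π (r (g * h) a) = π (r g (r h a)) := by rw [h1]
        exact h2 }
  have hρ : ∀ g a, ρ g (π a) = π (r g a) := fun g a => rfl
  refine ⟨Additive (A ⧸ N), inferInstance, F, t, ρ, π x, ⟨?_, ?_, ?_, ?_, ?_, ?_, ?_, ?_, ?_⟩, ?_⟩
  · rw [eq_top_iff]
    intro v _
    obtain ⟨a, rfl⟩ := hπs v
    rw [hF, h0]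
    exact Subgroup.mem_top _
  · intro j v hv
    obtain ⟨a, rfl⟩ := hπs v
    rw [hF] at hv ⊢
    exact hanti j hv
  · intro v hv
    obtain ⟨a, rfl⟩ := hπs v
    rw [hπzero]
    intro j
    exact (hF j a).mp (hv j)
  · intro j v
    obtain ⟨a, rfl⟩ := hπs v
    rw [ht, hF, hF]
    exact hτ j a
  · rw [hF]; exact hx
  · intro v
    obtain ⟨a, rfl⟩ := hπs v
    rw [← hπpow, hF]
    exact hp a
  · intro j v hv
    obtain ⟨a, rfl⟩ := hπs v
    rw [hF] at hv
    obtain ⟨k, hk⟩ := hgen j a hv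
    refine ⟨k, ?_⟩
    rw [htj, ← hπpow, sub_eq_add_neg, ← hπneg, ← hπadd, hF]
    exact hk
  · intro g j v hv
    obtain ⟨a, rfl⟩ := hπs v
    rw [hρ, hF]
    rw [hF] at hv
    exact hr g j a hv
  · intro g v
    obtain ⟨a, rfl⟩ := hπs v
    rw [ht, hρ, hρ, ht, heq]
  · intro g hg a j
    have h1 := hg (π a)
    rw [hρ] at h1
    have h2 : π (r g a * a⁻¹) = 0 := by
      rw [hπadd, hπneg, h1]; exact add_neg_cancel _
    exact (hπzero _).mp h2 j

/-- a function which is eventually smaller than `p` along an ultrafilter is eventually constant -/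
theorem ult_const (U : Ultrafilter ℕ) (p : ℕ) (f : ℕ → ℕ) (h : ∀ᶠ K in (U : Filter ℕ), f K < p) :
    ∃ r, ∀ᶠ K in (U : Filter ℕ), f K = r := by
  have h1 : (⋃ i ∈ Set.Iio p, {K | f K = i}) ∈ U := by
    refine Filter.mem_of_superset h ?_
    intro K hK
    simp only [Set.mem_iUnion]
    exact ⟨f K, hK, rfl⟩
  rw [Ultrafilter.finite_biUnion_mem_iff (Set.finite_Iio p)] at h1
  obtain ⟨i, _, hi⟩ := h1
  exact ⟨i, hi⟩

/-- in a group with a normal subgroup `B` of prime index in `A`, every element outside generates -/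
theorem gen_mod {G : Type} [Group G] (p : ℕ) (hp : p.Prime) (A B : Subgroup G)
    (hB : B.Normal) (hi : B.relIndex A = p) (y : G) (hy : y ∈ A) (hyB : y ∉ B)
    (a : G) (ha : a ∈ A) : ∃ k, k < p ∧ a * (y ^ k)⁻¹ ∈ B := by
  have hfact : Fact p.Prime := ⟨hp⟩
  have hn : (B.subgroupOf A).Normal := hB.subgroupOf A
  have hcard : Nat.card (A ⧸ B.subgroupOf A) = p := hi
  have hpow := mem_powers_of_prime_card (G := A ⧸ B.subgroupOf A) (p := p) hcard
    (g := ((⟨y, hy⟩ : A) : A ⧸ B.subgroupOf A)) (g' := ((⟨a, ha⟩ : A) : A ⧸ B.subgroupOf A)) (by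
      intro h1
      rw [QuotientGroup.eq_one_iff, Subgroup.mem_subgroupOf] at h1
      exact hyB h1)
  obtain ⟨k, hk⟩ := hpow
  have hkp : ((⟨y, hy⟩ : A) : A ⧸ B.subgroupOf A) ^ (k % p) = ((⟨a, ha⟩ : A) : A ⧸ B.subgroupOf A) := by
    rw [← hk]
    have h2 : ((⟨y, hy⟩ : A) : A ⧸ B.subgroupOf A) ^ p = 1 := by
      rw [← hcard]; exact pow_card_eq_one'
    have h3 : k = p * (k / p) + k % p := (Nat.div_add_mod k p).symm
    conv_rhs => rw [h3]
    simp only
    rw [pow_add, pow_mul, h2, one_pow, one_mul]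
  refine ⟨k % p, Nat.mod_lt _ hp.pos, ?_⟩
  rw [← QuotientGroup.mk_pow, QuotientGroup.eq, Subgroup.mem_subgroupOf] at hkp
  have h4 : (y ^ (k % p))⁻¹ * a ∈ B := by
    have h5 : (((⟨y, hy⟩ : A) ^ (k % p))⁻¹ * (⟨a, ha⟩ : A) : A).1 = (y ^ (k % p))⁻¹ * a := rfl
    rw [h5] at hkp
    exact hkp
  exact (hB.mem_comm_iff).mp h4

theorem ult (chn : ChnStmt) (chr : ChrStmt) (abc : AbcStmt) (clm : ClmStmt) (ker : KerStmt) :
    UltStmt := by
  classical
  intro G _ _ p ψ hp hinj hidx
  have hfact : Fact p.Prime := ⟨hp⟩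
  choose n hn A hA hA0 using chn G p ψ hp hinj hidx
  let U : Ultrafilter ℕ := Filter.hyperfilter ℕ
  have hUat : ∀ P : ℕ → Prop, (∃ N, ∀ K, N ≤ K → P K) → ∀ᶠ K in (U : Filter ℕ), P K := by
    intro P hP
    have h1 : ∀ᶠ K in Filter.atTop, P K := Filter.eventually_atTop.mpr hP
    exact Nat.hyperfilter_le_atTop h1
  -- the group of sequences
  let AA : Type := ∀ K : ℕ, A K (n K)
  let grp : Group AA := Pi.group
  -- every level of the chain is normal
  have hnrm : ∀ K i g a, a ∈ A K i → g * a * g⁻¹ ∈ A K i := fun K i g a ha => ((hA K).nrm i).conj_mem a ha g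
  have hmono : ∀ K i j, i ≤ j → A K i ≤ A K j := by
    intro K i j hij
    induction hij with
    | refl => exact le_refl _
    | step _ ih => exact le_trans ih ((hA K).mono _)
  -- the subgroups
  let Z : ℕ → Subgroup AA := fun j =>
    { carrier := {a | ∀ᶠ K in (U : Filter ℕ), (a K : G) ∈ A K (n K - j)}
      mul_mem' := by
        intro a b ha hb
        filter_upwards [ha, hb] with K h1 h2
        exact (A K (n K - j)).mul_mem h1 h2
      one_mem' := by
        apply Filter.Eventually.of_forall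
        intro K
        exact (A K (n K - j)).one_mem
      inv_mem' := by
        intro a ha
        filter_upwards [ha] with K h1
        exact (A K (n K - j)).inv_mem h1 }
  have hZ : ∀ j (a : AA), a ∈ Z j ↔ ∀ᶠ K in (U : Filter ℕ), (a K : G) ∈ A K (n K - j) :=
    fun j a => Iff.rfl
  let τ : AA →* AA :=
    { toFun := fun a K => ⟨ψ (a K), by
        have h1 : ∀ y, y ∈ A K (n K) → ψ y ∈ A K (n K) := by
          intro y hy
          rw [← (hA K).stb, (hA K).com] at hy
          exact hy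
        exact h1 _ (a K).2⟩
      map_one' := by
        funext K
        apply Subtype.ext
        exact map_one ψ
      map_mul' := by
        intro a b
        funext K
        apply Subtype.ext
        exact map_mul ψ _ _ }
  have hτv : ∀ a K, ((τ a K : A K (n K)) : G) = ψ (a K) := fun a K => rfl
  let r : G →* Monoid.End AA :=
    { toFun := fun g =>
        { toFun := fun a K => ⟨g * a K * g⁻¹, hnrm K _ g _ (a K).2⟩
          map_one' := by
            funext K
            apply Subtype.ext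
            change g * 1 * g⁻¹ = 1
            group
          map_mul' := by
            intro a b
            funext K
            apply Subtype.ext
            change g * ((a K : G) * (b K : G)) * g⁻¹ = (g * (a K : G) * g⁻¹) * (g * (b K : G) * g⁻¹)
            group }
      map_one' := by
        apply MonoidHom.ext
        intro a
        funext K
        apply Subtype.ext
        change 1 * (a K : G) * 1⁻¹ = a K
        group
      map_mul' := by
        intro g h
        apply MonoidHom.ext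
        intro a
        funext K
        apply Subtype.ext
        change (g * h) * (a K : G) * (g * h)⁻¹ = g * (h * (a K : G) * h⁻¹) * g⁻¹
        group }
  have hrv : ∀ g a K, ((r g a K : A K (n K)) : G) = g * (a K : G) * g⁻¹ := fun g a K => rfl
  -- ABC at the top
  have habc : ∀ R, ∀ᶠ K in (U : Filter ℕ), R ≤ n K ∧ ∀ a ∈ A K (n K), ∀ b ∈ A K (n K),
      a * b * a⁻¹ * b⁻¹ ∈ A K (n K - R) := by
    intro R
    obtain ⟨m, hm⟩ := abc G p ψ hp R
    apply hUat
    refine ⟨m + R, ?_⟩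
    intro K hK
    have h1 : m + R ≤ n K := le_trans hK (hn K)
    refine ⟨by omega, ?_⟩
    intro a ha b hb
    refine hm (n K) (A K) (hA K) ?_ a ha (n K) h1 (le_refl _) b hb
    rw [hA0]
    exact (ker G (p ^ K)).2.2.2.2.1 (p ^ R) (Nat.pow_le_pow_right hp.pos (by omega))
  -- the element x
  have hx : ∀ K, 1 ≤ n K → ∃ x : G, x ∈ A K (n K) ∧ x ∉ A K (n K - 1) := by
    intro K hK
    by_contra hcon
    push Not at hcon
    have h1 := (hA K).idx (n K - 1) (by omega)
    rw [Nat.sub_add_cancel hK] at h1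
    have h2 : A K (n K) ≤ A K (n K - 1) := hcon
    rw [Subgroup.relIndex_eq_one.mpr h2] at h1
    exact hp.one_lt.ne h1
  let x : AA := fun K => if h : 1 ≤ n K then ⟨(hx K h).choose, (hx K h).choose_spec.1⟩ else 1
  have hxv : ∀ K, 1 ≤ n K → (x K : G) ∉ A K (n K - 1) := by
    intro K hK
    have h1 : x K = ⟨(hx K hK).choose, (hx K hK).choose_spec.1⟩ := dif_pos hK
    rw [h1]
    exact (hx K hK).choose_spec.2
  have hτj : ∀ j (a : AA) K, (((⇑τ)^[j] a) K : G) = (⇑ψ)^[j] (a K) := by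
    intro j
    induction j with
    | zero => intro a K; rfl
    | succ j ih =>
      intro a K
      rw [Function.iterate_succ_apply', Function.iterate_succ_apply', hτv, ih]
  -- membership of the iterates
  have hit : ∀ K i j g, (⇑ψ)^[j] g ∈ A K i ↔ g ∈ A K (i + j) := by
    intro K i j
    induction j generalizing i with
    | zero => intro g; rfl
    | succ j ih =>
      intro g
      rw [Function.iterate_succ_apply, ih, ← (hA K).com]
      rfl
  have hchr : ∀ K i, A K (n K + i) = A K (n K) := fun K => (chr G p ψ (n K) (A K) (hA K)).1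
  have hgen : ∀ j, ∀ a ∈ Z j, ∃ k : ℕ, a * (((⇑τ)^[j] x) ^ k)⁻¹ ∈ Z (j + 1) := by
    intro j a ha
    have h1 : ∀ᶠ K in (U : Filter ℕ), j + 1 ≤ n K := hUat _ ⟨j + 1, fun K hK => le_trans hK (hn K)⟩
    have h2 : ∀ K, j + 1 ≤ n K → (a K : G) ∈ A K (n K - j) → ∃ k, k < p ∧
        (a K : G) * (((⇑ψ)^[j] (x K : G)) ^ k)⁻¹ ∈ A K (n K - (j + 1)) := by
      intro K hK haK
      refine gen_mod p hp (A K (n K - j)) (A K (n K - (j + 1))) ((hA K).nrm _) ?_ _ ?_ ?_ _ haK
      · have h3 := (hA K).idx (n K - (j + 1)) (by omega)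
        rwa [show n K - (j + 1) + 1 = n K - j by omega] at h3
      · rw [hit, show n K - j + j = n K by omega]
        exact (x K).2
      · rw [hit, show n K - (j + 1) + j = n K - 1 by omega]
        exact hxv K (by omega)
    let f : ℕ → ℕ := fun K => if h : j + 1 ≤ n K ∧ (a K : G) ∈ A K (n K - j) then
      (h2 K h.1 h.2).choose else 0
    have hf : ∀ K, j + 1 ≤ n K → (a K : G) ∈ A K (n K - j) → f K < p ∧
        (a K : G) * (((⇑ψ)^[j] (x K : G)) ^ (f K))⁻¹ ∈ A K (n K - (j + 1)) := by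
      intro K h3 h4
      have h5 : f K = (h2 K h3 h4).choose := dif_pos ⟨h3, h4⟩
      rw [h5]
      exact (h2 K h3 h4).choose_spec
    have h6 : ∀ᶠ K in (U : Filter ℕ), f K < p := by
      filter_upwards [h1, (hZ j a).mp ha] with K h3 h4
      exact (hf K h3 h4).1
    obtain ⟨k, hk⟩ := ult_const U p f h6
    refine ⟨k, ?_⟩
    rw [hZ]
    filter_upwards [h1, (hZ j a).mp ha, hk] with K h3 h4 h5
    have h7 := (hf K h3 h4).2
    rw [h5] at h7
    have h8 : ((a * (((⇑τ)^[j] x) ^ k)⁻¹) K : G) = (a K : G) * (((((⇑τ)^[j] x) K : G)) ^ k)⁻¹ := rfl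
    rw [h8, hτj]
    exact h7
  have g1 : ∀ j, (Z j).Normal := by
    intro j
    refine ⟨?_⟩
    intro a ha b
    rw [hZ] at ha ⊢
    filter_upwards [ha] with K hK
    exact hnrm K _ (b K : G) (a K : G) hK
  have g2 : Z 0 = ⊤ := by
    rw [eq_top_iff]
    intro a _
    rw [hZ]
    apply Filter.Eventually.of_forall
    intro K
    exact (a K).2
  have g3 : ∀ j, Z (j + 1) ≤ Z j := by
    intro j a ha
    rw [hZ] at ha ⊢
    filter_upwards [ha] with K hK
    exact hmono K _ _ (by omega) hK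
  have g4 : ∀ a b j, a * b * a⁻¹ * b⁻¹ ∈ Z j := by
    intro a b j
    rw [hZ]
    filter_upwards [habc j] with K hK
    exact hK.2 (a K) (a K).2 (b K) (b K).2
  have g5 : ∀ j a, τ a ∈ Z (j + 1) ↔ a ∈ Z j := by
    intro j a
    rw [hZ, hZ]
    have h1 : ∀ᶠ K in (U : Filter ℕ), j + 1 ≤ n K := hUat _ ⟨j + 1, fun K hK => le_trans hK (hn K)⟩
    constructor
    · intro h
      filter_upwards [h, h1] with K h2 h3
      rw [hτv, ← (hA K).com, show n K - (j + 1) + 1 = n K - j by omega] at h2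
      exact h2
    · intro h
      filter_upwards [h, h1] with K h2 h3
      rw [hτv, ← (hA K).com, show n K - (j + 1) + 1 = n K - j by omega]
      exact h2
  have g6 : ∀ g j a, a ∈ Z j → r g a ∈ Z j := by
    intro g j a ha
    rw [hZ] at ha ⊢
    filter_upwards [ha] with K hK
    rw [hrv]
    exact hnrm K _ g _ hK
  have g7 : ∀ g a, r (ψ g) (τ a) = τ (r g a) := by
    intro g a
    funext K
    apply Subtype.ext
    rw [hrv, hτv, hτv, hrv, map_mul, map_mul, map_inv]
  have g8 : x ∉ Z 1 := by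
    rw [hZ]
    intro h
    have h1 : ∀ᶠ K in (U : Filter ℕ), 1 ≤ n K := hUat _ ⟨1, fun K hK => le_trans hK (hn K)⟩
    obtain ⟨K, h2, h3⟩ := (h.and h1).exists
    exact hxv K h3 h2
  have g9 : ∀ a, a ^ p ∈ Z 1 := by
    intro a
    rw [hZ]
    have h1 : ∀ᶠ K in (U : Filter ℕ), 1 ≤ n K := hUat _ ⟨1, fun K hK => le_trans hK (hn K)⟩
    filter_upwards [h1] with K hK
    have h3 := (hA K).idx (n K - 1) (by omega)
    rw [Nat.sub_add_cancel hK] at h3
    have h4 : ((a ^ p) K : G) = (a K : G) ^ p := rfl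
    rw [h4]
    have hn' : ((A K (n K - 1)).subgroupOf (A K (n K))).Normal := ((hA K).nrm _).subgroupOf _
    have hcard : Nat.card (A K (n K) ⧸ (A K (n K - 1)).subgroupOf (A K (n K))) = p := h3
    have h5 : ((a K : A K (n K)) : A K (n K) ⧸ (A K (n K - 1)).subgroupOf (A K (n K))) ^ p = 1 := by
      conv_lhs => rw [← hcard]
      exact pow_card_eq_one'
    rw [← QuotientGroup.mk_pow, QuotientGroup.eq_one_iff, Subgroup.mem_subgroupOf] at h5
    exact h5
  obtain ⟨V, hV, F, t, ρ, x', hFil, hρ⟩ := abs_quot p ψ AA Z g1 g2 g3 g4 τ g5 r g6 g7 x g8 g9 hgen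
  refine ⟨V, hV, F, t, ρ, x', hFil, ?_⟩
  intro g g' hg hg' R
  have key : ∀ g : G, (∀ v, ρ g v = v) → ∀ᶠ K in (U : Filter ℕ), ∀ a ∈ A K (n K),
      g * a * g⁻¹ * a⁻¹ ∈ A K (n K - R) := by
    intro g hg
    by_contra hcon
    rw [← Ultrafilter.eventually_not] at hcon
    have h1 : ∀ K, (¬ ∀ a ∈ A K (n K), g * a * g⁻¹ * a⁻¹ ∈ A K (n K - R)) →
        ∃ a : A K (n K), ¬ (g * (a : G) * g⁻¹ * (a : G)⁻¹ ∈ A K (n K - R)) := by
      intro K hK
      push Not at hK
      obtain ⟨a, ha, hb⟩ := hK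
      exact ⟨⟨a, ha⟩, hb⟩
    let b : AA := fun K => if h : (¬ ∀ a ∈ A K (n K), g * a * g⁻¹ * a⁻¹ ∈ A K (n K - R)) then
      (h1 K h).choose else 1
    have hb : ∀ K, (¬ ∀ a ∈ A K (n K), g * a * g⁻¹ * a⁻¹ ∈ A K (n K - R)) →
        ¬ (g * (b K : G) * g⁻¹ * (b K : G)⁻¹ ∈ A K (n K - R)) := by
      intro K hK
      have h2 : b K = (h1 K hK).choose := dif_pos hK
      rw [h2]
      exact (h1 K hK).choose_spec
    have h3 := hρ g hg b R
    rw [hZ] at h3
    obtain ⟨K, h4, h5⟩ := (h3.and hcon).exists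
    exact hb K h5 h4
  obtain ⟨K, ⟨h1, h2⟩, h3, h4⟩ := ((habc R).and ((key g hg).and (key g' hg'))).exists
  exact clm G p ψ (n K) (A K) (hA K) R h1 h2 g g' h3 h4

end Pool.Agent.ZTO.H52
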