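import Pool.Agent.ZTO.Stmts

set_option autoImplicit false

namespace Pool.Agent.ZTO.H52

theorem zth (ult : UltStmt) (mdt : MdtStmt) (fin : FinStmt) : ZthStmt := by
  intro G _ _ ψ htor hinj hp
  obtain ⟨V, hV, F, t, ρ, x, hFil, h⟩ := ult G ψ.range.index ψ hp hinj rfl
  obtain ⟨H, hH, hact⟩ := mdt G ψ.range.index ψ V F t ρ x hp htor hFil
  exact fin G ψ.range.index ψ hp hinj rfl htor H hH
    (fun g hg g' hg' R => h g g' (hact g hg) (hact g' hg') R)

end Pool.Agent.ZTO.H52
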